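import Pool.Agent.K3h56.E2.Stm2

/-!
# The capitulation kernel
-/

set_option autoImplicit false
set_option linter.style.haveILetI false
set_option linter.unusedSectionVars false

open NumberField IsDedekindDomain
open scoped nonZeroDivisors

noncomputable section

namespace Pool.Agent.K3h92.E2

open Pool.Agent.K3h30.RS Pool.Agent.K3h56.E2

/-- a relation which induces an injective homomorphism -/
theorem relIndex_dvd {C M : Type} [CommGroup C] [CommGroup M] (C' D : Subgroup C)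
    (N V : Subgroup M) (Rel : C → M → Prop) (ex : ∀ c ∈ C', ∃ m, Rel c m)
    (mul : ∀ c m c' m', Rel c m → Rel c' m' → Rel (c * c') (m * m'))
    (mem : ∀ c m, Rel c m → m ∈ N) (uniq : ∀ c m m', Rel c m → Rel c m' → m⁻¹ * m' ∈ V)
    (ker : ∀ c m, Rel c m → m ∈ V → c ∈ D) : D.relIndex C' ∣ V.relIndex N := by
  choose s hs using ex
  let g : C' →* N ⧸ (V.subgroupOf N) := MonoidHom.mk'
    (fun c => QuotientGroup.mk ⟨s c.1 c.2, mem _ _ (hs c.1 c.2)⟩) (by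
      rintro ⟨c, hc⟩ ⟨c', hc'⟩
      rw [← QuotientGroup.mk_mul, QuotientGroup.eq, Subgroup.mem_subgroupOf]
      exact uniq (c * c') _ _ (hs (c * c') (C'.mul_mem hc hc')) (mul _ _ _ _ (hs c hc) (hs c' hc')))
  have h1 : g.ker ≤ D.subgroupOf C' := by
    rintro ⟨c, hc⟩ h
    rw [MonoidHom.mem_ker] at h
    have h2 : (QuotientGroup.mk (⟨s c hc, mem _ _ (hs c hc)⟩ : N) : N ⧸ (V.subgroupOf N)) = 1 := h
    rw [QuotientGroup.eq_one_iff, Subgroup.mem_subgroupOf] at h2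
    rw [Subgroup.mem_subgroupOf]
    exact ker c _ (hs c hc) h2
  have h2 : (D.subgroupOf C').index ∣ g.ker.index := Subgroup.index_dvd_of_le h1
  rw [Subgroup.index_ker] at h2
  exact h2.trans (Subgroup.card_subgroup_dvd_card g.range)

section ideals

variable {R : Type} [CommRing R] [IsDedekindDomain R]

/-- the prime divisors of the ideal `b ≠ 0` are in `A` -/
def IsB (A : Set (HeightOneSpectrum R)) (b : Ideal R) : Prop :=
  b ≠ 0 ∧ ∀ P : HeightOneSpectrum R, P.asIdeal ∣ b → P ∈ A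

theorem isB_mul {A : Set (HeightOneSpectrum R)} {b c : Ideal R} (hb : IsB A b) (hc : IsB A c) :
    IsB A (b * c) := by
  refine ⟨mul_ne_zero hb.1 hc.1, fun P hP => ?_⟩
  rcases P.prime.dvd_or_dvd hP with h | h
  · exact hb.2 P h
  · exact hc.2 P h

theorem isB_one (A : Set (HeightOneSpectrum R)) : IsB A (1 : Ideal R) :=
  ⟨one_ne_zero, fun P hP => (P.prime.not_isUnit (isUnit_of_dvd_one hP)).elim⟩

theorem isB_prime {A : Set (HeightOneSpectrum R)} {P : HeightOneSpectrum R} (hP : P ∈ A) :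
    IsB A P.asIdeal := by
  refine ⟨P.ne_bot, fun Q hQ => ?_⟩
  have h1 : Q.asIdeal = P.asIdeal := by
    have h2 := (Prime.dvd_prime_iff_associated Q.prime P.prime).1 hQ
    exact associated_iff_eq.1 h2
  have h3 : Q = P := HeightOneSpectrum.ext h1
  rw [h3]
  exact hP

theorem half (P : HeightOneSpectrum R) {s t : R} {b b' : Ideal R}
    (h : Ideal.span {s} * b = Ideal.span {t} * b') (hb : ¬ P.asIdeal ∣ b) :
    P.intValuation s ≤ P.intValuation t := by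
  rw [Ideal.dvd_iff_le, SetLike.not_le_iff_exists] at hb
  obtain ⟨β, h1, h2⟩ := hb
  have h3 : s * β ∈ Ideal.span {t} * b' := by
    rw [← h]
    exact Ideal.mul_mem_mul (Ideal.mem_span_singleton_self s) h1
  obtain ⟨z, -, hz⟩ := Ideal.mem_span_singleton_mul.1 h3
  have h5 : P.intValuation β = 1 := by
    refine le_antisymm (P.intValuation_le_one β) (not_lt.1 fun h6 => h2 ?_)
    exact (P.intValuation_lt_one_iff_mem β).1 h6
  have h6 : P.intValuation s = P.intValuation t * P.intValuation z := by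
    rw [← map_mul, hz, map_mul, h5, mul_one]
  rw [h6]
  exact mul_le_of_le_one_right' (P.intValuation_le_one z)

theorem half' (P : HeightOneSpectrum R) {s t : R} (ht : t ≠ 0) {b b' : Ideal R}
    (h : Ideal.span {s} * b = Ideal.span {t} * b') (hb : ¬ P.asIdeal ∣ b) (hb' : P.asIdeal ∣ b') :
    P.intValuation s < P.intValuation t := by
  rw [Ideal.dvd_iff_le, SetLike.not_le_iff_exists] at hb
  obtain ⟨β, h1, h2⟩ := hb
  have h3 : s * β ∈ Ideal.span {t} * b' := by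
    rw [← h]
    exact Ideal.mul_mem_mul (Ideal.mem_span_singleton_self s) h1
  obtain ⟨z, hz0, hz⟩ := Ideal.mem_span_singleton_mul.1 h3
  have h5 : P.intValuation β = 1 := by
    refine le_antisymm (P.intValuation_le_one β) (not_lt.1 fun h6 => h2 ?_)
    exact (P.intValuation_lt_one_iff_mem β).1 h6
  have h6 : P.intValuation s = P.intValuation t * P.intValuation z := by
    rw [← map_mul, hz, map_mul, h5, mul_one]
  have h7 : P.intValuation z < 1 :=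
    (P.intValuation_lt_one_iff_mem z).2 (Ideal.dvd_iff_le.1 hb' hz0)
  have h8 : 0 < P.intValuation t := zero_lt_iff.2 (P.intValuation_ne_zero t ht)
  rw [h6]
  calc P.intValuation t * P.intValuation z < P.intValuation t * 1 :=
        (mul_lt_mul_iff_right₀ h8).2 h7
    _ = P.intValuation t := mul_one _

theorem val_eq (A : Set (HeightOneSpectrum R)) {s t : R} {b b' : Ideal R} (hb : IsB A b)
    (hb' : IsB A b') (h : Ideal.span {s} * b = Ideal.span {t} * b') (P : HeightOneSpectrum R)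
    (hP : P ∉ A) : P.intValuation s = P.intValuation t :=
  le_antisymm (half P h fun h1 => hP (hb.2 P h1)) (half P h.symm fun h1 => hP (hb'.2 P h1))

/-- a fraction which is a unit outside `A` -/
theorem exists_isB (A : Set (HeightOneSpectrum R)) {s t : R} (hs : s ≠ 0) (ht : t ≠ 0)
    (h : ∀ P : HeightOneSpectrum R, P ∉ A → P.intValuation s = P.intValuation t) :
    ∃ b b' : Ideal R, IsB A b ∧ IsB A b' ∧ Ideal.span {s} * b = Ideal.span {t} * b' := by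
  classical
  have hs' : Ideal.span {s} ≠ (0 : Ideal R) := by
    rw [Ne, Ideal.zero_eq_bot, Ideal.span_singleton_eq_bot]; exact hs
  have ht' : Ideal.span {t} ≠ (0 : Ideal R) := by
    rw [Ne, Ideal.zero_eq_bot, Ideal.span_singleton_eq_bot]; exact ht
  set g : Ideal R := Ideal.span {s} ⊔ Ideal.span {t} with hg
  obtain ⟨b', hb'⟩ : g ∣ Ideal.span {s} := Ideal.dvd_iff_le.2 le_sup_left
  obtain ⟨b, hb⟩ : g ∣ Ideal.span {t} := Ideal.dvd_iff_le.2 le_sup_right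
  have hg0 : g ≠ 0 := by
    rintro h0
    rw [h0, zero_mul] at hb'
    exact hs' hb'
  have hb0 : b ≠ 0 := by
    rintro h0
    rw [h0, mul_zero] at hb
    exact ht' hb
  have hb0' : b' ≠ 0 := by
    rintro h0
    rw [h0, mul_zero] at hb'
    exact hs' hb'
  have hcop : b' ⊔ b = 1 := by
    have h1 : g * (b' ⊔ b) = g * 1 := by
      rw [Ideal.mul_sup, ← hb', ← hb, mul_one]
    exact mul_left_cancel₀ hg0 h1
  have hst : Ideal.span {s} * b = Ideal.span {t} * b' := by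
    rw [hb', hb]; ring
  have hnot : ∀ P : HeightOneSpectrum R, P.asIdeal ∣ b' → ¬ P.asIdeal ∣ b := by
    intro P h1 h2
    rw [Ideal.dvd_iff_le] at h1 h2
    have h3 : (1 : Ideal R) ≤ P.asIdeal := by
      rw [← hcop]
      exact sup_le h1 h2
    exact P.isPrime.ne_top (by rw [eq_top_iff, ← Ideal.one_eq_top]; exact h3)
  refine ⟨b, b', ⟨hb0, fun P hP => ?_⟩, ⟨hb0', fun P hP => ?_⟩, hst⟩
  · by_contra hA
    have h1 := half' P hs hst.symm (fun h2 => hnot P h2 hP) hP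
    rw [h P hA] at h1
    exact lt_irrefl _ h1
  · by_contra hA
    have h1 := half' P ht hst (hnot P hP) hP
    rw [h P hA] at h1
    exact lt_irrefl _ h1

end ideals

section quad

variable {F K : Type} [Field F] [NumberField F] [Field K] [NumberField K] [Algebra F K]

theorem tau_facts (τ : K ≃ₐ[F] K) (hQ : Quad F K τ) :
    (∀ x : K, τ (τ x) = x) ∧ ∀ x : K, τ x = x → ∃ y : F, algebraMap F K y = x := by
  haveI : Algebra.IsQuadraticExtension F K := { finrank_eq_two' := hQ.deg }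
  haveI : IsGalois F K := inferInstance
  have hcard : Nat.card (K ≃ₐ[F] K) = 2 := by
    rw [IsGalois.card_aut_eq_finrank, hQ.deg]
  have h2 : ∀ σ : K ≃ₐ[F] K, σ ≠ 1 → σ = τ := by
    intro σ hσ
    obtain ⟨y, hy, hy'⟩ := (Nat.card_eq_two_iff' (1 : K ≃ₐ[F] K)).mp hcard
    rw [hy' σ hσ, hy' τ hQ.ne]
  have hτ1 : τ ≠ 1 := hQ.ne
  have hinv : τ⁻¹ = τ := h2 _ (inv_ne_one.mpr hτ1)
  refine ⟨fun x => ?_, fun x hx => ?_⟩
  · have h3 : (τ⁻¹ : K ≃ₐ[F] K) (τ x) = x := AlgEquiv.symm_apply_apply τ x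
    rwa [hinv] at h3
  · have h3 : x ∈ (⊥ : IntermediateField F K) := by
      rw [IsGalois.mem_bot_iff_fixed]
      intro σ
      by_cases hσ : σ = 1
      · rw [hσ]; rfl
      · rw [h2 σ hσ]; exact hx
    exact IntermediateField.mem_bot.1 h3

/-- the automorphism of the ring of integers -/
def sig (τ : K ≃ₐ[F] K) : 𝓞 K ≃+* 𝓞 K := MulSemiringAction.toRingEquiv (K ≃ₐ[F] K) (𝓞 K) τ

theorem coe_sig (τ : K ≃ₐ[F] K) (x : 𝓞 K) : ((sig τ x : 𝓞 K) : K) = τ (x : K) := rfl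

theorem sig_alg (τ : K ≃ₐ[F] K) (y : 𝓞 F) :
    sig τ (algebraMap (𝓞 F) (𝓞 K) y) = algebraMap (𝓞 F) (𝓞 K) y := by
  apply RingOfIntegers.ext
  rw [coe_sig]
  have h1 : ((algebraMap (𝓞 F) (𝓞 K) y : 𝓞 K) : K) = algebraMap F K (y : F) := rfl
  rw [h1, AlgEquiv.commutes]

theorem sig_comp (τ : K ≃ₐ[F] K) :
    ((sig τ : 𝓞 K ≃+* 𝓞 K) : 𝓞 K →+* 𝓞 K).comp (algebraMap (𝓞 F) (𝓞 K)) =
      algebraMap (𝓞 F) (𝓞 K) :=
  RingHom.ext fun y => sig_alg τ y

theorem map_sig_map (τ : K ≃ₐ[F] K) (J : Ideal (𝓞 F)) :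
    (J.map (algebraMap (𝓞 F) (𝓞 K))).map ((sig τ : 𝓞 K ≃+* 𝓞 K) : 𝓞 K →+* 𝓞 K) =
      J.map (algebraMap (𝓞 F) (𝓞 K)) := by
  rw [Ideal.map_map, sig_comp]

theorem isB_sig (τ : K ≃ₐ[F] K) {S : Finset (HeightOneSpectrum (𝓞 F))}
    {A : Finset (HeightOneSpectrum (𝓞 K))} (hA : Over S A) {b : Ideal (𝓞 K)}
    (hb : IsB (A : Set (HeightOneSpectrum (𝓞 K))) b) :
    IsB (A : Set (HeightOneSpectrum (𝓞 K))) (b.map ((sig τ : 𝓞 K ≃+* 𝓞 K) : 𝓞 K →+* 𝓞 K)) := by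
  have hinj : Function.Injective ((sig τ : 𝓞 K ≃+* 𝓞 K) : 𝓞 K →+* 𝓞 K) := (sig τ).injective
  refine ⟨fun h => hb.1 ((Ideal.map_eq_bot_iff_of_injective hinj).1 h), fun P hP => ?_⟩
  rw [Ideal.dvd_iff_le, Ideal.map_le_iff_le_comap] at hP
  haveI := P.isPrime
  have hne : P.asIdeal.comap ((sig τ : 𝓞 K ≃+* 𝓞 K) : 𝓞 K →+* 𝓞 K) ≠ ⊥ := by
    intro h
    rw [h] at hP
    exact hb.1 (le_bot_iff.1 hP)
  let Q : HeightOneSpectrum (𝓞 K) :=
    ⟨P.asIdeal.comap ((sig τ : 𝓞 K ≃+* 𝓞 K) : 𝓞 K →+* 𝓞 K), Ideal.comap_isPrime _ _, hne⟩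
  have h1 : Q ∈ (A : Set (HeightOneSpectrum (𝓞 K))) := hb.2 Q (Ideal.dvd_iff_le.2 hP)
  obtain ⟨v, hv, v', hv', h2⟩ := (hA Q).1 h1
  refine (hA P).2 ⟨v, hv, v', hv', ?_⟩
  rw [← h2]
  show P.asIdeal.comap _ = (P.asIdeal.comap _).comap _
  rw [Ideal.comap_comap, sig_comp]

theorem cls_mem {A : Set (HeightOneSpectrum (𝓞 K))} (b : Ideal (𝓞 K)) : IsB A b →
    ∀ hb : b ∈ (Ideal (𝓞 K))⁰, ClassGroup.mk0 ⟨b, hb⟩ ∈ CA A := by
  induction b using UniqueFactorizationMonoid.induction_on_prime with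
  | h₁ => intro h _; exact (h.1 rfl).elim
  | h₂ x hx =>
    intro _ hb
    have h1 : (⟨x, hb⟩ : (Ideal (𝓞 K))⁰) = 1 := Subtype.ext ((Ideal.isUnit_iff.1 hx).trans Ideal.one_eq_top.symm)
    rw [h1, map_one]
    exact Subgroup.one_mem _
  | h₃ a p ha hp ih =>
    intro h hb
    have ha' : a ∈ (Ideal (𝓞 K))⁰ := mem_nonZeroDivisors_of_ne_zero ha
    have hp' : p ∈ (Ideal (𝓞 K))⁰ := mem_nonZeroDivisors_of_ne_zero hp.ne_zero
    have h1 : (⟨p * a, hb⟩ : (Ideal (𝓞 K))⁰) = ⟨p, hp'⟩ * ⟨a, ha'⟩ := rfl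
    rw [h1, map_mul]
    refine Subgroup.mul_mem _ ?_ (ih ⟨ha, fun P hP => h.2 P (hP.mul_left p)⟩ ha')
    let v : HeightOneSpectrum (𝓞 K) := ⟨p, Ideal.isPrime_of_prime hp, hp.ne_zero⟩
    have hv : v ∈ A := h.2 v (dvd_mul_right p a)
    exact Subgroup.subset_closure ⟨v, hv, rfl⟩

theorem exists_rep {A : Set (HeightOneSpectrum (𝓞 K))} {c : ClassGroup (𝓞 K)} (hc : c ∈ CA A) :
    ∃ (b : Ideal (𝓞 K)) (hb : b ∈ (Ideal (𝓞 K))⁰), IsB A b ∧ ClassGroup.mk0 ⟨b, hb⟩ = c := by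
  have h1 : c ∈ (CA A).toSubmonoid := hc
  unfold CA at h1
  rw [Subgroup.closure_toSubmonoid_of_finite] at h1
  induction h1 using Submonoid.closure_induction with
  | mem x hx =>
    obtain ⟨v, hv, rfl⟩ := hx
    exact ⟨v.asIdeal, mem_nonZeroDivisors_of_ne_zero v.ne_bot, isB_prime hv, rfl⟩
  | one => exact ⟨1, Submonoid.one_mem _, isB_one A, map_one _⟩
  | mul x y _ _ hx hy =>
    obtain ⟨b, hb, h2, h3⟩ := hx (by
      show x ∈ (CA A).toSubmonoid
      unfold CA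
      rw [Subgroup.closure_toSubmonoid_of_finite]
      assumption)
    obtain ⟨b', hb', h2', h3'⟩ := hy (by
      show y ∈ (CA A).toSubmonoid
      unfold CA
      rw [Subgroup.closure_toSubmonoid_of_finite]
      assumption)
    refine ⟨b * b', Submonoid.mul_mem _ hb hb', isB_mul h2 h2', ?_⟩
    rw [← h3, ← h3', ← map_mul]
    rfl

/-- equality outside `A` of extended ideals -/
theorem descent {S : Finset (HeightOneSpectrum (𝓞 F))}
    {A : Finset (HeightOneSpectrum (𝓞 K))} (hA : Over S A) {a₁ a₂ : Ideal (𝓞 F)}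
    (h1 : a₁ ∈ (Ideal (𝓞 F))⁰) (h2 : a₂ ∈ (Ideal (𝓞 F))⁰) {B B' : Ideal (𝓞 K)}
    (hB : IsB (A : Set (HeightOneSpectrum (𝓞 K))) B)
    (hB' : IsB (A : Set (HeightOneSpectrum (𝓞 K))) B')
    (h : a₁.map (algebraMap (𝓞 F) (𝓞 K)) * B = a₂.map (algebraMap (𝓞 F) (𝓞 K)) * B') :
    ClassGroup.mk0 ⟨a₁, h1⟩ / ClassGroup.mk0 ⟨a₂, h2⟩ ∈
      CA (S : Set (HeightOneSpectrum (𝓞 F))) := by
  classical
  have inj : Function.Injective (algebraMap (𝓞 F) (𝓞 K)) := FaithfulSMul.algebraMap_injective _ _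
  have h10 : a₁ ≠ 0 := nonZeroDivisors.ne_zero h1
  have h20 : a₂ ≠ 0 := nonZeroDivisors.ne_zero h2
  set g : Ideal (𝓞 F) := a₁ ⊔ a₂ with hg
  obtain ⟨b₁, hb₁⟩ : g ∣ a₁ := Ideal.dvd_iff_le.2 le_sup_left
  obtain ⟨b₂, hb₂⟩ : g ∣ a₂ := Ideal.dvd_iff_le.2 le_sup_right
  have hg0 : g ≠ 0 := by
    intro h0
    rw [h0, zero_mul] at hb₁
    exact h10 hb₁
  have hb10 : b₁ ≠ 0 := by
    intro h0
    rw [h0, mul_zero] at hb₁
    exact h10 hb₁
  have hb20 : b₂ ≠ 0 := by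
    intro h0
    rw [h0, mul_zero] at hb₂
    exact h20 hb₂
  have hcop : b₁ ⊔ b₂ = 1 := by
    have h3 : g * (b₁ ⊔ b₂) = g * 1 := by
      rw [Ideal.mul_sup, ← hb₁, ← hb₂, mul_one]
    exact mul_left_cancel₀ hg0 h3
  have hgm : g.map (algebraMap (𝓞 F) (𝓞 K)) ≠ 0 := fun h3 =>
    hg0 ((Ideal.map_eq_bot_iff_of_injective inj).1 h3)
  have hbb : b₁.map (algebraMap (𝓞 F) (𝓞 K)) * B = b₂.map (algebraMap (𝓞 F) (𝓞 K)) * B' := by
    rw [hb₁, hb₂, Ideal.map_mul, Ideal.map_mul, mul_assoc, mul_assoc] at h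
    exact mul_left_cancel₀ hgm h
  -- the prime divisors of `b₁` and `b₂` are in `S`
  have key : ∀ (c₁ c₂ : Ideal (𝓞 F)) (C C' : Ideal (𝓞 K)), c₁ ⊔ c₂ = 1 → c₁ ≠ 0 →
      IsB (A : Set (HeightOneSpectrum (𝓞 K))) C' →
      c₁.map (algebraMap (𝓞 F) (𝓞 K)) * C = c₂.map (algebraMap (𝓞 F) (𝓞 K)) * C' →
      IsB (S : Set (HeightOneSpectrum (𝓞 F))) c₁ := by
    intro c₁ c₂ C C' hc hc0 hC' he
    refine ⟨hc0, fun v hv => ?_⟩
    haveI := v.isMaximal
    obtain ⟨Q, hQm, hQ⟩ := Ideal.exists_ideal_over_maximal_of_isIntegral (S := 𝓞 K) v.asIdeal (by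
      rw [(RingHom.injective_iff_ker_eq_bot _).1 inj]
      exact bot_le)
    have hQ0 : Q ≠ ⊥ := by
      intro h0
      rw [h0] at hQ
      apply v.ne_bot
      rw [← hQ]
      exact (RingHom.injective_iff_ker_eq_bot _).1 inj
    let P : HeightOneSpectrum (𝓞 K) := ⟨Q, hQm.isPrime, hQ0⟩
    have hP1 : P.asIdeal ∣ c₁.map (algebraMap (𝓞 F) (𝓞 K)) := by
      rw [Ideal.dvd_iff_le, Ideal.map_le_iff_le_comap]
      show c₁ ≤ Q.comap _
      rw [hQ]
      exact Ideal.dvd_iff_le.1 hv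
    have hP2 : P.asIdeal ∣ c₂.map (algebraMap (𝓞 F) (𝓞 K)) * C' := by
      rw [← he]
      exact hP1.mul_right C
    rcases P.prime.dvd_or_dvd hP2 with h3 | h3
    · exfalso
      rw [Ideal.dvd_iff_le, Ideal.map_le_iff_le_comap] at h3
      have h4 : c₂ ≤ v.asIdeal := by
        rw [← hQ]
        exact h3
      have h5 : (1 : Ideal (𝓞 F)) ≤ v.asIdeal := by
        rw [← hc]
        exact sup_le (Ideal.dvd_iff_le.1 hv) h4
      exact v.isPrime.ne_top (by rw [eq_top_iff, ← Ideal.one_eq_top]; exact h5)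
    · obtain ⟨v₁, hv₁, v', hv', h4⟩ := (hA P).1 (hC'.2 P h3)
      rw [Set.mem_singleton_iff] at hv'
      have h5 : v = v₁ := by
        apply HeightOneSpectrum.ext
        rw [← hv', ← h4]
        exact hQ.symm
      rw [h5]
      exact hv₁
  have k1 := key b₁ b₂ B B' hcop hb10 hB' hbb
  have k2 := key b₂ b₁ B' B (by rw [sup_comm]; exact hcop) hb20 hB hbb.symm
  have hg' : g ∈ (Ideal (𝓞 F))⁰ := mem_nonZeroDivisors_of_ne_zero hg0
  have e1 : (⟨a₁, h1⟩ : (Ideal (𝓞 F))⁰) = ⟨g, hg'⟩ * ⟨b₁, mem_nonZeroDivisors_of_ne_zero hb10⟩ :=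
    Subtype.ext hb₁
  have e2 : (⟨a₂, h2⟩ : (Ideal (𝓞 F))⁰) = ⟨g, hg'⟩ * ⟨b₂, mem_nonZeroDivisors_of_ne_zero hb20⟩ :=
    Subtype.ext hb₂
  rw [e1, e2, map_mul, map_mul, mul_div_mul_left_eq_div]
  exact Subgroup.div_mem _ (cls_mem b₁ k1 _) (cls_mem b₂ k2 _)

/-- the relation between the classes and the elements `α / τ α` -/
def Rel (τ : K ≃ₐ[F] K) (A : Set (HeightOneSpectrum (𝓞 K))) (c : ClassGroup (𝓞 F)) (m : Kˣ) :
    Prop :=
  ∃ (J : (Ideal (𝓞 F))⁰) (α : Kˣ) (x y : 𝓞 K) (b b' : Ideal (𝓞 K)), ClassGroup.mk0 J = c ∧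
    x ≠ 0 ∧ y ≠ 0 ∧ (α : K) * (y : K) = (x : K) ∧ IsB A b ∧ IsB A b' ∧
    Ideal.span {x} * (J : Ideal (𝓞 F)).map (algebraMap (𝓞 F) (𝓞 K)) * b' = Ideal.span {y} * b ∧
    m = α / actK τ α

theorem coe_act (τ : K ≃ₐ[F] K) (x : Kˣ) : ((actK τ x : Kˣ) : K) = τ (x : K) := rfl

theorem rel_mul (τ : K ≃ₐ[F] K) (A : Set (HeightOneSpectrum (𝓞 K))) (c : ClassGroup (𝓞 F)) (m : Kˣ)
    (c' : ClassGroup (𝓞 F)) (m' : Kˣ) (h : Rel τ A c m) (h' : Rel τ A c' m') :
    Rel τ A (c * c') (m * m') := by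
  obtain ⟨J, α, x, y, b, b₁, h1, h2, h3, h4, h5, h6, h7, h8⟩ := h
  obtain ⟨J', α', x', y', b', b₁', h1', h2', h3', h4', h5', h6', h7', h8'⟩ := h'
  refine ⟨J * J', α * α', x * x', y * y', b * b', b₁ * b₁', by rw [map_mul, h1, h1'],
    mul_ne_zero h2 h2', mul_ne_zero h3 h3', ?_, isB_mul h5 h5', isB_mul h6 h6', ?_, ?_⟩
  · show (α : K) * (α' : K) * ((y : K) * (y' : K)) = (x : K) * (x' : K)
    rw [← h4, ← h4']
    ring
  · rw [← Ideal.span_singleton_mul_span_singleton, ← Ideal.span_singleton_mul_span_singleton,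
      Submonoid.coe_mul, Ideal.map_mul]
    calc _ = (Ideal.span {x} * (J : Ideal (𝓞 F)).map (algebraMap (𝓞 F) (𝓞 K)) * b₁) *
          (Ideal.span {x'} * (J' : Ideal (𝓞 F)).map (algebraMap (𝓞 F) (𝓞 K)) * b₁') := by ring
      _ = _ := by rw [h7, h7']; ring
  · rw [h8, h8', map_mul, mul_div_mul_comm]

/-- from an equality of integral values to the group of units outside `A` -/
theorem mem_SU {A : Set (HeightOneSpectrum (𝓞 K))} {u : Kˣ} {s t : 𝓞 K} (ht : t ≠ 0)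
    (h : (u : K) * (t : K) = (s : K)) {b b' : Ideal (𝓞 K)} (hb : IsB A b) (hb' : IsB A b')
    (he : Ideal.span {s} * b = Ideal.span {t} * b') : u ∈ SU K A := by
  intro P hP
  have h1 := val_eq A hb hb' he P hP
  have h2 : P.valuation K (u : K) * P.intValuation t = P.intValuation t := by
    calc P.valuation K (u : K) * P.intValuation t = P.valuation K (u : K) * P.valuation K (t : K) := by
          rw [← P.valuation_of_algebraMap (K := K) t]
      _ = P.valuation K (s : K) := by rw [← map_mul, h]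
      _ = P.intValuation s := P.valuation_of_algebraMap (K := K) s
      _ = P.intValuation t := h1
  have h3 : P.intValuation t ≠ 0 := P.intValuation_ne_zero t ht
  exact mul_right_cancel₀ h3 (h2.trans (one_mul _).symm)

theorem rel_mem (τ : K ≃ₐ[F] K) (hQ : Quad F K τ) {S : Finset (HeightOneSpectrum (𝓞 F))}
    {A : Finset (HeightOneSpectrum (𝓞 K))} (hA : Over S A) (c : ClassGroup (𝓞 F)) (m : Kˣ)
    (h : Rel τ (A : Set (HeightOneSpectrum (𝓞 K))) c m) :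
    m ∈ SU K (A : Set (HeightOneSpectrum (𝓞 K))) ⊓ minus τ := by
  obtain ⟨J, α, x, y, b, b₁, h1, h2, h3, h4, h5, h6, h7, h8⟩ := h
  obtain ⟨htt, -⟩ := tau_facts τ hQ
  have hinv : actK τ (actK τ α) = α := Units.ext (htt _)
  refine ⟨?_, ?_⟩
  · have hσ : Ideal.span {sig τ x} * (J : Ideal (𝓞 F)).map (algebraMap (𝓞 F) (𝓞 K)) *
        b₁.map ((sig τ : 𝓞 K ≃+* 𝓞 K) : 𝓞 K →+* 𝓞 K) =
        Ideal.span {sig τ y} * b.map ((sig τ : 𝓞 K ≃+* 𝓞 K) : 𝓞 K →+* 𝓞 K) := by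
      have e := congrArg (Ideal.map ((sig τ : 𝓞 K ≃+* 𝓞 K) : 𝓞 K →+* 𝓞 K)) h7
      rw [Ideal.map_mul, Ideal.map_mul, Ideal.map_mul, map_sig_map, Ideal.map_span,
        Ideal.map_span, Set.image_singleton, Set.image_singleton] at e
      exact e
    have hx0 : sig τ x ≠ 0 := fun h => h2 ((sig τ).map_eq_zero_iff.1 h)
    have hy0 : sig τ y ≠ 0 := fun h => h3 ((sig τ).map_eq_zero_iff.1 h)
    have hα : τ (α : K) * τ (y : K) = τ (x : K) := by rw [← map_mul, h4]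
    refine mem_SU (s := x * sig τ y) (t := y * sig τ x) (mul_ne_zero h3 hx0) ?_
      (isB_mul h6 (isB_sig τ hA h5)) (isB_mul h5 (isB_sig τ hA h6)) ?_
    · rw [h8, Units.val_div_eq_div_val]
      have hne : τ (α : K) ≠ 0 := by
        rw [← coe_act]
        exact Units.ne_zero _
      show (α : K) / τ (α : K) * ((y : K) * τ (x : K)) = (x : K) * τ (y : K)
      rw [← hα, ← h4]
      field_simp
    · rw [← Ideal.span_singleton_mul_span_singleton, ← Ideal.span_singleton_mul_span_singleton]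
      calc _ = (Ideal.span {x} * b₁) *
            (Ideal.span {sig τ y} * b.map ((sig τ : 𝓞 K ≃+* 𝓞 K) : 𝓞 K →+* 𝓞 K)) := by ring
        _ = (Ideal.span {x} * (J : Ideal (𝓞 F)).map (algebraMap (𝓞 F) (𝓞 K)) * b₁) *
            (Ideal.span {sig τ x} * b₁.map ((sig τ : 𝓞 K ≃+* 𝓞 K) : 𝓞 K →+* 𝓞 K)) := by
            rw [← hσ]; ring
        _ = _ := by rw [h7]; ring
  · show actK τ m = m⁻¹
    rw [h8, map_div, hinv, inv_div]

theorem rel_uniq (τ : K ≃ₐ[F] K) (A : Set (HeightOneSpectrum (𝓞 K))) (c : ClassGroup (𝓞 F))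
    (m m' : Kˣ) (h : Rel τ A c m) (h' : Rel τ A c m') :
    m⁻¹ * m' ∈ (SU K A).map ((MonoidHom.id Kˣ) / actK τ) := by
  have inj : Function.Injective (algebraMap (𝓞 F) (𝓞 K)) := FaithfulSMul.algebraMap_injective _ _
  obtain ⟨J, α, x, y, b, b₁, h1, h2, h3, h4, h5, h6, h7, h8⟩ := h
  obtain ⟨J', α', x', y', b', b₁', h1', h2', h3', h4', h5', h6', h7', h8'⟩ := h'
  obtain ⟨f₁, f₂, hf₁, hf₂, hf⟩ := ClassGroup.mk0_eq_mk0_iff.1 (h1.trans h1'.symm)
  have hF₁ : algebraMap (𝓞 F) (𝓞 K) f₁ ≠ 0 := fun h => hf₁ (inj (by rw [h, map_zero]))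
  have hF₂ : algebraMap (𝓞 F) (𝓞 K) f₂ ≠ 0 := fun h => hf₂ (inj (by rw [h, map_zero]))
  set F₁ := algebraMap (𝓞 F) (𝓞 K) f₁ with hF₁d
  set F₂ := algebraMap (𝓞 F) (𝓞 K) f₂ with hF₂d
  have hf' := congrArg (Ideal.map (algebraMap (𝓞 F) (𝓞 K))) hf
  rw [Ideal.map_mul, Ideal.map_mul, Ideal.map_span, Ideal.map_span, Set.image_singleton,
    Set.image_singleton, ← hF₁d, ← hF₂d] at hf'
  have hJ : (J : Ideal (𝓞 F)).map (algebraMap (𝓞 F) (𝓞 K)) ≠ 0 := fun h =>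
    nonZeroDivisors.ne_zero J.2 ((Ideal.map_eq_bot_iff_of_injective inj).1 h)
  have k1 : (F₁ : K) ≠ 0 := by
    intro h
    exact hF₁ (RingOfIntegers.ext h)
  have k2 : (F₂ : K) ≠ 0 := by
    intro h
    exact hF₂ (RingOfIntegers.ext h)
  -- the unit
  let φ : Kˣ := Units.mk0 (F₁ : K) k1 / Units.mk0 (F₂ : K) k2
  have hφ : actK τ φ = φ := by
    rw [show φ = Units.mk0 (F₁ : K) k1 / Units.mk0 (F₂ : K) k2 from rfl, map_div]
    congr 1
    · apply Units.ext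
      show τ (F₁ : K) = (F₁ : K)
      have := congrArg (fun z : 𝓞 K => (z : K)) (sig_alg τ f₁)
      exact this
    · apply Units.ext
      show τ (F₂ : K) = (F₂ : K)
      have := congrArg (fun z : 𝓞 K => (z : K)) (sig_alg τ f₂)
      exact this
  refine ⟨α' / α * φ, ?_, ?_⟩
  · have hα : (α : K) ≠ 0 := α.ne_zero
    have hα' : (α' : K) ≠ 0 := α'.ne_zero
    refine mem_SU (s := x' * F₁ * y) (t := y' * F₂ * x)
      (mul_ne_zero (mul_ne_zero h3' hF₂) h2) ?_ (isB_mul h5 h6') (isB_mul h5' h6) ?_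
    · have e1 : ((α' / α * φ : Kˣ) : K) = (α' : K) / α * ((F₁ : K) / (F₂ : K)) := by
        simp [φ, Units.val_div_eq_div_val]
      rw [e1]
      show (α' : K) / α * ((F₁ : K) / (F₂ : K)) * ((y' : K) * (F₂ : K) * (x : K)) =
        (x' : K) * (F₁ : K) * (y : K)
      rw [← h4, ← h4']
      field_simp
    · apply mul_left_cancel₀ hJ
      simp only [← Ideal.span_singleton_mul_span_singleton]
      calc _ = (Ideal.span {x'} * (Ideal.span {F₁} *
            (J : Ideal (𝓞 F)).map (algebraMap (𝓞 F) (𝓞 K))) * b₁') * (Ideal.span {y} * b) := by ring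
        _ = (Ideal.span {x'} * (J' : Ideal (𝓞 F)).map (algebraMap (𝓞 F) (𝓞 K)) * b₁') *
            Ideal.span {F₂} * (Ideal.span {y} * b) := by rw [hf']; ring
        _ = (Ideal.span {y'} * b') * Ideal.span {F₂} *
            (Ideal.span {x} * (J : Ideal (𝓞 F)).map (algebraMap (𝓞 F) (𝓞 K)) * b₁) := by
            rw [h7', h7]
        _ = _ := by ring
  · show (α' / α * φ) / actK τ (α' / α * φ) = m⁻¹ * m'
    rw [h8, h8', map_mul, map_div, hφ, mul_div_mul_right_eq_div, inv_div]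
    simp only [div_eq_mul_inv, mul_inv, inv_inv]
    ac_rfl

theorem rel_ker (τ : K ≃ₐ[F] K) (hQ : Quad F K τ) {S : Finset (HeightOneSpectrum (𝓞 F))}
    {A : Finset (HeightOneSpectrum (𝓞 K))} (hA : Over S A) (c : ClassGroup (𝓞 F)) (m : Kˣ)
    (h : Rel τ (A : Set (HeightOneSpectrum (𝓞 K))) c m)
    (hm : m ∈ (SU K (A : Set (HeightOneSpectrum (𝓞 K)))).map ((MonoidHom.id Kˣ) / actK τ)) :
    c ∈ CA (S : Set (HeightOneSpectrum (𝓞 F))) := by
  have inj : Function.Injective (algebraMap (𝓞 F) (𝓞 K)) := FaithfulSMul.algebraMap_injective _ _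
  obtain ⟨J, α, x, y, b, b₁, h1, h2, h3, h4, h5, h6, h7, h8⟩ := h
  obtain ⟨-, hfix⟩ := tau_facts τ hQ
  obtain ⟨u, hu, hum⟩ := hm
  have hum' : u / actK τ u = α / actK τ α := hum.trans h8
  have hβ : actK τ (α / u) = α / u := by
    rw [map_div, div_eq_div_iff_mul_eq_mul]
    rw [div_eq_div_iff_mul_eq_mul] at hum'
    rw [mul_comm, hum', mul_comm]
  obtain ⟨f, hf⟩ := hfix ((α / u : Kˣ) : K) (congrArg Units.val hβ)
  have hf0 : f ≠ 0 := by
    rintro rfl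
    rw [map_zero] at hf
    exact (α / u).ne_zero hf.symm
  obtain ⟨f₁, f₂, hf₂, hff⟩ := IsFractionRing.div_surjective (A := 𝓞 F) f
  have hf₂' : f₂ ≠ 0 := nonZeroDivisors.ne_zero hf₂
  have hf₁' : f₁ ≠ 0 := by
    rintro rfl
    rw [map_zero, zero_div] at hff
    exact hf0 hff.symm
  have hF₁ : algebraMap (𝓞 F) (𝓞 K) f₁ ≠ 0 := fun h => hf₁' (inj (by rw [h, map_zero]))
  have hF₂ : algebraMap (𝓞 F) (𝓞 K) f₂ ≠ 0 := fun h => hf₂' (inj (by rw [h, map_zero]))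
  obtain ⟨s, t, ht, hst⟩ := IsFractionRing.div_surjective (A := 𝓞 K) (u : K)
  have ht' : t ≠ 0 := nonZeroDivisors.ne_zero ht
  have hs' : s ≠ 0 := by
    rintro rfl
    rw [map_zero, zero_div] at hst
    exact u.ne_zero hst.symm
  have htK : (t : K) ≠ 0 := fun h => ht' (RingOfIntegers.ext h)
  have hval : ∀ P : HeightOneSpectrum (𝓞 K), P ∉ (A : Set (HeightOneSpectrum (𝓞 K))) →
      P.intValuation s = P.intValuation t := by
    intro P hP
    have h9 := hu P hP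
    rw [← hst, map_div₀, P.valuation_of_algebraMap, P.valuation_of_algebraMap] at h9
    exact (div_eq_one_iff_eq (P.intValuation_ne_zero t ht')).1 h9
  obtain ⟨B, B', hB, hB', hBB⟩ := exists_isB (A : Set (HeightOneSpectrum (𝓞 K))) hs' ht' hval
  -- x F₂ t = y F₁ s
  have hx : x * algebraMap (𝓞 F) (𝓞 K) f₂ * t = y * algebraMap (𝓞 F) (𝓞 K) f₁ * s := by
    apply RingOfIntegers.ext
    have hF₂K : algebraMap F K (f₂ : F) ≠ 0 := by
      rw [Ne, map_eq_zero]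
      exact fun h => hf₂' (RingOfIntegers.ext h)
    have e1 : (α : K) = algebraMap F K f * (u : K) := by
      rw [hf, Units.val_div_eq_div_val, div_mul_cancel₀ _ u.ne_zero]
    have e2 : algebraMap F K f = algebraMap F K (f₁ : F) / algebraMap F K (f₂ : F) := by
      rw [← hff, map_div₀]
    have e3 : (u : K) = (s : K) / (t : K) := hst.symm
    show (x : K) * algebraMap F K (f₂ : F) * (t : K) = (y : K) * algebraMap F K (f₁ : F) * (s : K)
    rw [← h4, e1, e2, e3]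
    field_simp
  have hmain : ((Ideal.span {f₁} * (J : Ideal (𝓞 F))).map (algebraMap (𝓞 F) (𝓞 K))) * (b₁ * B') =
      (Ideal.span {f₂}).map (algebraMap (𝓞 F) (𝓞 K)) * (b * B) := by
    rw [Ideal.map_mul, Ideal.map_span, Ideal.map_span, Set.image_singleton, Set.image_singleton]
    have hne : Ideal.span {y} * Ideal.span {t} ≠ (0 : Ideal (𝓞 K)) := by
      rw [Ideal.span_singleton_mul_span_singleton, Ne, Ideal.zero_eq_bot,
        Ideal.span_singleton_eq_bot]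
      exact mul_ne_zero h3 ht'
    apply mul_left_cancel₀ hne
    have hx' := congrArg (fun z : 𝓞 K => Ideal.span ({z} : Set (𝓞 K))) hx
    simp only [← Ideal.span_singleton_mul_span_singleton] at hx'
    calc _ = (Ideal.span {y} * Ideal.span {algebraMap (𝓞 F) (𝓞 K) f₁}) *
          (Ideal.span {t} * B') * ((J : Ideal (𝓞 F)).map (algebraMap (𝓞 F) (𝓞 K)) * b₁) := by ring
      _ = (Ideal.span {y} * Ideal.span {algebraMap (𝓞 F) (𝓞 K) f₁} * Ideal.span {s}) * B *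
          ((J : Ideal (𝓞 F)).map (algebraMap (𝓞 F) (𝓞 K)) * b₁) := by rw [← hBB]; ring
      _ = (Ideal.span {x} * (J : Ideal (𝓞 F)).map (algebraMap (𝓞 F) (𝓞 K)) * b₁) *
          (Ideal.span {algebraMap (𝓞 F) (𝓞 K) f₂} * Ideal.span {t} * B) := by rw [← hx']; ring
      _ = _ := by rw [h7]; ring
  have m1 : Ideal.span {f₁} ∈ (Ideal (𝓞 F))⁰ := mem_nonZeroDivisors_of_ne_zero (by
    rw [Ne, Ideal.zero_eq_bot, Ideal.span_singleton_eq_bot]; exact hf₁')
  have m2 : Ideal.span {f₂} ∈ (Ideal (𝓞 F))⁰ := mem_nonZeroDivisors_of_ne_zero (by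
    rw [Ne, Ideal.zero_eq_bot, Ideal.span_singleton_eq_bot]; exact hf₂')
  have hd := descent hA (Submonoid.mul_mem _ m1 J.2) m2 (isB_mul h6 hB') (isB_mul h5 hB) hmain
  have p1 : ClassGroup.mk0 (⟨Ideal.span {f₁}, m1⟩ : (Ideal (𝓞 F))⁰) = 1 :=
    (ClassGroup.mk0_eq_one_iff m1).2 ⟨⟨f₁, rfl⟩⟩
  have p2 : ClassGroup.mk0 (⟨Ideal.span {f₂}, m2⟩ : (Ideal (𝓞 F))⁰) = 1 :=
    (ClassGroup.mk0_eq_one_iff m2).2 ⟨⟨f₂, rfl⟩⟩
  have e3 : (⟨Ideal.span {f₁} * (J : Ideal (𝓞 F)), Submonoid.mul_mem _ m1 J.2⟩ :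
      (Ideal (𝓞 F))⁰) = ⟨Ideal.span {f₁}, m1⟩ * J := rfl
  rw [e3, map_mul, p1, p2, one_mul, div_one, h1] at hd
  exact hd

theorem rel_ex (τ : K ≃ₐ[F] K) (A : Set (HeightOneSpectrum (𝓞 K))) (c : ClassGroup (𝓞 F))
    (hc : c ∈ (CA A).comap (ClassGroup.extendedHom (𝓞 F) (𝓞 K))) : ∃ m, Rel τ A c m := by
  obtain ⟨J, rfl⟩ := ClassGroup.mk0_surjective c
  rw [Subgroup.mem_comap, ClassGroup.extendedHom_mk0] at hc
  obtain ⟨b, hb, h1, h2⟩ := exists_rep hc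
  obtain ⟨y, x, hy, hx, h3⟩ := ClassGroup.mk0_eq_mk0_iff.1 h2
  have hxK : (x : K) ≠ 0 := fun h => hx (RingOfIntegers.ext h)
  have hyK : (y : K) ≠ 0 := fun h => hy (RingOfIntegers.ext h)
  refine ⟨_, J, Units.mk0 (x : K) hxK / Units.mk0 (y : K) hyK, x, y, b, 1, rfl, hx, hy, ?_, h1,
    isB_one A, ?_, rfl⟩
  · rw [Units.val_div_eq_div_val]
    exact div_mul_cancel₀ _ hyK
  · rw [mul_one]
    exact h3.symm

end quad

theorem t_CLS : S_CLS := by
  intro F K _ _ _ _ _ τ hQ S A hA _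
  set j := ClassGroup.extendedHom (𝓞 F) (𝓞 K) with hj
  set C' := (CA (A : Set (HeightOneSpectrum (𝓞 K)))).comap j with hC'
  have h1 : (CA (S : Set (HeightOneSpectrum (𝓞 F)))).relIndex C' ∣
      ((SU K (A : Set (HeightOneSpectrum (𝓞 K)))).map ((MonoidHom.id Kˣ) / actK τ)).relIndex
        (SU K (A : Set (HeightOneSpectrum (𝓞 K))) ⊓ minus τ) :=
    relIndex_dvd C' _ _ _ (Rel τ (A : Set (HeightOneSpectrum (𝓞 K)))) (fun c hc => rel_ex τ _ c hc)
      (rel_mul τ _) (rel_mem τ hQ hA) (rel_uniq τ _) (rel_ker τ hQ hA)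
  have h2 : C'.index ∣ (CA (A : Set (HeightOneSpectrum (𝓞 K)))).index := by
    rw [hC', Subgroup.index_comap]
    exact Subgroup.relIndex_dvd_index_of_normal _ _
  have h3 : (CA (S : Set (HeightOneSpectrum (𝓞 F)))).index ∣
      (CA (S : Set (HeightOneSpectrum (𝓞 F))) ⊓ C').index := Subgroup.index_dvd_of_le inf_le_left
  have h4 : (CA (S : Set (HeightOneSpectrum (𝓞 F))) ⊓ C').index =
      (CA (S : Set (HeightOneSpectrum (𝓞 F)))).relIndex C' * C'.index := by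
    rw [← Subgroup.relIndex_mul_index (inf_le_right :
      CA (S : Set (HeightOneSpectrum (𝓞 F))) ⊓ C' ≤ C'), Subgroup.inf_relIndex_right]
  rw [h4] at h3
  refine h3.trans ?_
  rw [mul_comm]
  exact mul_dvd_mul h2 h1

end Pool.Agent.K3h92.E2
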